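import Pool.Agent.H9.SmDefect.Defs

/-!
# Functionals on a reduced finite algebra over an algebraically closed field
-/

namespace Pool.Agent.H9.SmDefect

open TensorProduct

theorem exists_algHom_ne {L A : Type} [Field L] [IsAlgClosed L] [CommRing A] [Algebra L A]
    [Module.Finite L A] [IsReduced A] (b : A) (hb : b ≠ 0) : ∃ χ : A →ₐ[L] L, χ b ≠ 0 := by
  have hart : IsArtinianRing A := IsArtinianRing.of_finite L A
  have h1 : ¬ IsNilpotent b := fun h => hb h.eq_zero
  rw [nilpotent_iff_mem_prime] at h1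
  push Not at h1
  obtain ⟨P, hP, hbP⟩ := h1
  have hbij : Function.Bijective (algebraMap L (A ⧸ P)) :=
    IsAlgClosed.algebraMap_bijective_of_isIntegral
  let e : L ≃ₐ[L] (A ⧸ P) := AlgEquiv.ofBijective (Algebra.ofId L (A ⧸ P)) hbij
  refine ⟨(e.symm : (A ⧸ P) →ₐ[L] L).comp (Ideal.Quotient.mkₐ L P), fun h => hbP ?_⟩
  have h2 : e.symm (Ideal.Quotient.mk P b) = 0 := h
  rw [EmbeddingLike.map_eq_zero_iff] at h2
  exact Ideal.Quotient.eq_zero_iff_mem.1 h2

theorem exists_coeffs {L A : Type} [Field L] [IsAlgClosed L] [CommRing A] [Algebra L A]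
    [Module.Finite L A] [IsReduced A] [Fintype (A →ₐ[L] L)] (ψ : A →ₗ[L] L) :
    ∃ c : (A →ₐ[L] L) → L, ∀ b, ψ b = ∑ χ, c χ * χ b := by
  let W : Subspace L (Module.Dual L A) :=
    Submodule.span L (Set.range fun χ : A →ₐ[L] L => χ.toLinearMap)
  have hW : W.dualCoannihilator = ⊥ := by
    rw [eq_bot_iff]
    intro b hb
    by_contra hne
    obtain ⟨χ, hχ⟩ := exists_algHom_ne (L := L) b hne
    rw [Submodule.mem_dualCoannihilator] at hb
    exact hχ (hb χ.toLinearMap (Submodule.subset_span ⟨χ, rfl⟩))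
  have htop : W = ⊤ := by
    have h1 : W.dualCoannihilator.dualAnnihilator = W := Subspace.dualCoannihilator_dualAnnihilator_eq
    rw [← h1, hW, Submodule.dualAnnihilator_bot]
  have hψ : ψ ∈ W := by
    rw [htop]
    exact Submodule.mem_top
  rw [Submodule.mem_span_range_iff_exists_fun] at hψ
  obtain ⟨c, hc⟩ := hψ
  refine ⟨c, fun b => ?_⟩
  rw [← hc]
  simp [LinearMap.sum_apply]

/-- Functionals on such an algebra of dimension at most `R` are combinations of `R` characters. -/
theorem exists_coeffs_fin {L A : Type} [Field L] [IsAlgClosed L] [CommRing A] [Algebra L A]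
    [Module.Finite L A] [IsReduced A] (R : ℕ) (hR : Module.finrank L A ≤ R) {σ ι : Type}
    (x : σ → A) (ψ : ι → A →ₗ[L] L) :
    ∃ (P : Fin R → σ → L) (c : ι → Fin R → L), ∀ i a b,
      ψ i (x a * x b) = ∑ s, c i s * (P s a * P s b) := by
  classical
  haveI : Fintype (A →ₐ[L] L) := Fintype.ofFinite _
  have hcard : Fintype.card (A →ₐ[L] L) ≤ Fintype.card (Fin R) := by
    rw [Fintype.card_fin, ← Nat.card_eq_fintype_card]
    exact (card_algHom_le_finrank L A L).trans hR
  obtain ⟨e⟩ := Function.Embedding.nonempty_of_card_le hcard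
  choose c hc using fun i => exists_coeffs (ψ i)
  refine ⟨fun s a => if h : ∃ χ, e χ = s then h.choose (x a) else 0,
    fun i s => if h : ∃ χ, e χ = s then c i h.choose else 0, fun i a b => ?_⟩
  rw [hc]
  have h1 : ∀ χ, (⟨χ, rfl⟩ : ∃ χ', e χ' = e χ).choose = χ := fun χ =>
    e.injective (⟨χ, rfl⟩ : ∃ χ', e χ' = e χ).choose_spec
  have h2 : ∑ χ, c i χ * χ (x a * x b) = ∑ s ∈ Finset.univ.map e,
      (if h : ∃ χ, e χ = s then c i h.choose else 0) *
        ((if h : ∃ χ, e χ = s then h.choose (x a) else 0) *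
          (if h : ∃ χ, e χ = s then h.choose (x b) else 0)) := by
    rw [Finset.sum_map]
    refine Finset.sum_congr rfl fun χ _ => ?_
    have h3 : ∃ χ', e χ' = e χ := ⟨χ, rfl⟩
    rw [dif_pos h3, dif_pos h3, dif_pos h3, h1, map_mul]
  rw [h2]
  refine Finset.sum_subset (Finset.subset_univ _) fun s _ hs => ?_
  have h4 : ¬ ∃ χ, e χ = s := by
    rintro ⟨χ, rfl⟩
    exact hs (Finset.mem_map_of_mem _ (Finset.mem_univ _))
  rw [dif_neg h4, zero_mul]

end Pool.Agent.H9.SmDefect
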