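import Mathlib

/-!
# Smoothable finite schemes and the smoothability defect: definitions
-/

namespace Pool.Agent.H9.SmDefect

open TensorProduct

/-- The `O`-algebra `B` is finite and free of rank `r` over `O`. -/
def IsFiniteFree (O B : Type) [CommRing O] [CommRing B] [Algebra O B] (r : ℕ) : Prop :=
  Module.Finite O B ∧ Module.Free O B ∧ Module.finrank O B = r

/-- The geometric generic fibre of the `O`-algebra `B` is reduced. -/
def IsGeomReduced (O B : Type) [CommRing O] [IsDomain O] [CommRing B] [Algebra O B] : Prop :=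
  IsReduced (AlgebraicClosure (FractionRing O) ⊗[O] B)

/-- `Γ = V(I) ⊆ 𝔸ⁿ` is a finite subscheme of degree `r`. -/
def HasDegree {k : Type} [Field k] {n : ℕ} (I : Ideal (MvPolynomial (Fin n) k)) (r : ℕ) : Prop :=
  IsFiniteFree k (MvPolynomial (Fin n) k ⧸ I) r

/-- `Γ = V(I) ⊆ 𝔸ⁿ` is a finite smoothable subscheme of degree `r`: it is the special fibre of a
closed subscheme `V(J)` of affine `n`-space over a discrete valuation ring `O` with residue field
`k`, finite and flat (free of rank `r`) over `O`, with geometrically reduced generic fibre. -/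
def IsSmoothable {k : Type} [Field k] {n : ℕ} (I : Ideal (MvPolynomial (Fin n) k)) (r : ℕ) :
    Prop :=
  HasDegree I r ∧
  ∃ (O : Type) (_ : CommRing O) (_ : IsDomain O) (_ : IsDiscreteValuationRing O)
    (_ : Algebra k O) (π : O →ₐ[k] k) (J : Ideal (MvPolynomial (Fin n) O)),
    IsFiniteFree O (MvPolynomial (Fin n) O ⧸ J) r ∧ IsGeomReduced O (MvPolynomial (Fin n) O ⧸ J) ∧
    J.map (MvPolynomial.map (π : O →+* k)) = I

/-- The smoothability defect `δ(Γ)` of the finite subscheme `Γ = V(I)` of degree `d`: the infimum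
of `deg Γ' - d` over all finite smoothable subschemes `Γ'` of affine `n`-space containing `Γ`. -/
noncomputable def defect {k : Type} [Field k] {n : ℕ} (I : Ideal (MvPolynomial (Fin n) k))
    (d : ℕ) : ℕ∞ :=
  sInf {e : ℕ∞ | ∃ I' ≤ I, ∃ r : ℕ, IsSmoothable I' r ∧ e = ((r - d : ℕ) : ℕ∞)}

end Pool.Agent.H9.SmDefect
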