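import Pool.Agent.H9.SmDefect.Alg

/-!
# Lifting functionals to a flat family
-/

namespace Pool.Agent.H9.SmDefect

open TensorProduct MvPolynomial

/-- A functional vanishing on the special fibre's ideal lifts to the family. -/
theorem exists_lift {k O σ : Type} [Field k] [CommRing O] [Algebra k O] (π : O →ₐ[k] k)
    (J : Ideal (MvPolynomial σ O)) [Module.Free O (MvPolynomial σ O ⧸ J)]
    [Module.Finite O (MvPolynomial σ O ⧸ J)] (φ : MvPolynomial σ k →ₗ[k] k)
    (hφ : ∀ g ∈ J.map (MvPolynomial.map (π : O →+* k)), φ g = 0) :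
    ∃ ψ : (MvPolynomial σ O ⧸ J) →ₗ[O] O, ∀ F : MvPolynomial σ O,
      π (ψ (Ideal.Quotient.mk J F)) = φ (MvPolynomial.map (π : O →+* k) F) := by
  classical
  let b := Module.Free.chooseBasis O (MvPolynomial σ O ⧸ J)
  have hs := Ideal.Quotient.mk_surjective (I := J)
  let rep : Module.Free.ChooseBasisIndex O (MvPolynomial σ O ⧸ J) → MvPolynomial σ O :=
    fun l => Function.surjInv hs (b l)
  have hrep : ∀ l, Ideal.Quotient.mk J (rep l) = b l := fun l => Function.surjInv_eq hs _
  let ψ : (MvPolynomial σ O ⧸ J) →ₗ[O] O := b.constr O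
    (fun l => algebraMap k O (φ (MvPolynomial.map (π : O →+* k) (rep l))))
  refine ⟨ψ, fun F => ?_⟩
  set x := Ideal.Quotient.mk J F with hx
  have h1 : ψ x = ∑ l, b.repr x l * algebraMap k O (φ (MvPolynomial.map (π : O →+* k) (rep l))) := by
    simp only [ψ, Module.Basis.constr_apply_fintype, smul_eq_mul, Module.Basis.equivFun_apply]
  have h2 : F - ∑ l, C (b.repr x l) * rep l ∈ J := by
    rw [← Ideal.Quotient.eq_zero_iff_mem, map_sub, map_sum, sub_eq_zero, ← hx]
    conv_lhs => rw [← b.sum_repr x]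
    refine Finset.sum_congr rfl fun l _ => ?_
    have h5 : ∀ (a : O) (g : MvPolynomial σ O),
        a • Ideal.Quotient.mk J g = Ideal.Quotient.mk J (C a * g) := fun a g => by
      rw [← smul_eq_C_mul]
      rfl
    rw [← h5, hrep]
  have h3 := hφ _ (Ideal.mem_map_of_mem (MvPolynomial.map (π : O →+* k)) h2)
  rw [map_sub, map_sub, sub_eq_zero, map_sum, map_sum] at h3
  rw [h3, h1, map_sum]
  refine Finset.sum_congr rfl fun l _ => ?_
  rw [map_mul, map_mul, map_C, ← smul_eq_C_mul, map_smul, smul_eq_mul, π.commutes]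
  rfl

/-- The values of the lifted functionals on products of two variables are given, over an
algebraically closed field, by the points of the geometric generic fibre. -/
theorem exists_points {k O σ ι : Type} [Field k] [CommRing O] [Algebra k O] (π : O →ₐ[k] k)
    (J : Ideal (MvPolynomial σ O)) [Module.Free O (MvPolynomial σ O ⧸ J)]
    [Module.Finite O (MvPolynomial σ O ⧸ J)] (L : Type) [Field L] [IsAlgClosed L] [Algebra O L]
    (hred : IsReduced (L ⊗[O] (MvPolynomial σ O ⧸ J))) (R : ℕ)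
    (hR : Module.finrank O (MvPolynomial σ O ⧸ J) ≤ R) [Nontrivial O]
    (φ : ι → MvPolynomial σ k →ₗ[k] k)
    (hφ : ∀ i, ∀ g ∈ J.map (MvPolynomial.map (π : O →+* k)), φ i g = 0) :
    ∃ (U : ι → σ → σ → O) (P : Fin R → σ → L) (c : ι → Fin R → L),
      (∀ i a b, π (U i a b) = φ i (X a * X b)) ∧
      ∀ i a b, algebraMap O L (U i a b) = ∑ s, c i s * (P s a * P s b) := by
  choose ψ hψ using fun i => exists_lift π J (φ i) (hφ i)
  have hfr : Module.finrank L (L ⊗[O] (MvPolynomial σ O ⧸ J)) ≤ R := by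
    rw [Module.finrank_baseChange]
    exact hR
  obtain ⟨P, c, hPc⟩ := exists_coeffs_fin (L := L) (A := L ⊗[O] (MvPolynomial σ O ⧸ J)) R hfr
    (σ := σ) (ι := ι) (fun a => 1 ⊗ₜ[O] Ideal.Quotient.mk J (X a))
    (fun i => LinearMap.liftBaseChange L ((Algebra.linearMap O L).comp (ψ i)))
  refine ⟨fun i a b => ψ i (Ideal.Quotient.mk J (X a * X b)), P, c, fun i a b => ?_,
    fun i a b => ?_⟩
  · rw [hψ, map_mul, map_X, map_X]
  · rw [← hPc, Algebra.TensorProduct.tmul_mul_tmul, LinearMap.liftBaseChange_tmul, mul_one,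
      one_smul, ← map_mul]
    rfl

end Pool.Agent.H9.SmDefect
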