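import Pool.Agent.H9.SmDefect.Scheme

/-!
# The smoothability defect of a general scheme with Hilbert function `(1, 2l, l)` is large
-/

namespace Pool.Agent.H9.SmDefect

open MvPolynomial TensorProduct

/-- The parametrisation of the possible values of the functionals. -/
noncomputable def Psi (k : Type) [Field k] (l R : ℕ) (idx : Fin l × Fin l × Fin l) :
    MvPolynomial (Fin R × (Fin (l + l) ⊕ Fin l)) k :=
  ∑ s, X (s, Sum.inr idx.1) *
    (X (s, Sum.inl (Fin.castAdd l idx.2.1)) * X (s, Sum.inl (Fin.natAdd l idx.2.2)))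

/-- The parameter count. -/
theorem exists_G (k : Type) [Field k] (l R : ℕ) (h : R * (l + l + l) < l * (l * l)) :
    ∃ G : MvPolynomial (Fin l × Fin l × Fin l) k, G ≠ 0 ∧ bind₁ (Psi k l R) G = 0 := by
  by_contra hcon
  push Not at hcon
  have hind : AlgebraicIndependent k (Psi k l R) := by
    rw [AlgebraicIndependent, injective_iff_map_eq_zero]
    intro G hG
    by_contra hne
    exact hcon G hne hG
  have h1 := hind.cardinalMk_le_trdeg
  rw [MvPolynomial.trdeg_of_isDomain] at h1
  simp only [Cardinal.mk_fintype, Fintype.card_prod, Fintype.card_sum, Fintype.card_fin,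
    Cardinal.lift_natCast, Nat.cast_le] at h1
  omega

theorem not_smoothable {k : Type} [Field k] {l R : ℕ}
    (G : MvPolynomial (Fin l × Fin l × Fin l) k) (hG : bind₁ (Psi k l R) G = 0)
    (u : Fin l × Fin l × Fin l → k) (hu : eval u G ≠ 0)
    (I' : Ideal (MvPolynomial (Fin (l + l)) k)) (hle : I' ≤ idl u) (r : ℕ)
    (hsm : IsSmoothable I' r) : R < r := by
  by_contra hR
  rw [not_lt] at hR
  obtain ⟨-, O, _, _, _, _, π, J, ⟨hfin, hfree, hrank⟩, hred, hmap⟩ := hsm
  let L := AlgebraicClosure (FractionRing O)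
  obtain ⟨U, P, c, hU1, hU2⟩ := exists_points π J L hred R (by rw [hrank]; exact hR)
    (fun i => phi u i) (fun i g hg => by
      rw [hmap] at hg
      have h1 := hle hg
      rw [mem_idl, mem_ker_theta] at h1
      exact h1.2.2 i)
  have hinj : Function.Injective (algebraMap O L) := by
    rw [IsScalarTower.algebraMap_eq O (FractionRing O) L]
    exact (algebraMap (FractionRing O) L).injective.comp (IsFractionRing.injective O _)
  let W : Fin l × Fin l × Fin l → O := fun idx =>
    U idx.1 (Fin.castAdd l idx.2.1) (Fin.natAdd l idx.2.2)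
  let ρ : k →+* L := (algebraMap O L).comp (algebraMap k O)
  let V : Fin R × (Fin (l + l) ⊕ Fin l) → L := fun x =>
    Sum.elim (fun a => P x.1 a) (fun i => c i x.1) x.2
  have hW : ∀ idx, algebraMap O L (W idx) = eval₂Hom ρ V (Psi k l R idx) := by
    intro idx
    rw [Psi, map_sum, hU2]
    refine Finset.sum_congr rfl fun s _ => ?_
    rw [map_mul, map_mul, coe_eval₂Hom, eval₂_X, eval₂_X, eval₂_X]
    rfl
  have h0 : eval₂ (algebraMap k O) W G = 0 := by
    apply hinj
    rw [map_zero]
    have h1 : algebraMap O L (eval₂ (algebraMap k O) W G)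
        = eval₂Hom ρ (fun idx => eval₂Hom ρ V (Psi k l R idx)) G := by
      rw [hom_eval₂, coe_eval₂Hom]
      congr 1
      funext idx
      exact hW idx
    rw [h1, ← eval₂Hom_bind₁, hG, map_zero]
  apply hu
  have h2 : (π : O →+* k) (eval₂ (algebraMap k O) W G) = eval u G := by
    rw [hom_eval₂, eval]
    have h3 : (π : O →+* k).comp (algebraMap k O) = RingHom.id k :=
      RingHom.ext fun x => π.commutes x
    have h4 : (fun idx => (π : O →+* k) (W idx)) = u := by
      funext idx
      obtain ⟨i, a, b⟩ := idx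
      change π (U i (Fin.castAdd l a) (Fin.natAdd l b)) = u (i, a, b)
      rw [hU1, phi_X_mul_X]
    rw [coe_eval₂Hom, h3, ← h4]
  rw [← h2, h0, map_zero]

theorem main (k : Type) [Field k] [Infinite k] (c : ℕ) :
    ∃ (n d : ℕ) (I : Ideal (MvPolynomial (Fin n) k)), HasDegree I d ∧ (c : ℕ∞) * d < defect I d := by
  let l := 12 * (c + 1)
  let R := (c + 1) * (3 * l + 1)
  have hlR : R * (l + l + l) < l * (l * l) := by
    have h1 : 3 * R < l * l := by
      simp only [R, l]
      nlinarith [sq_nonneg c]
    have h2 : 0 < l := by simp only [l]; omega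
    nlinarith
  obtain ⟨G, hG0, hG⟩ := exists_G k l R hlR
  obtain ⟨u, hu⟩ : ∃ u : Fin l × Fin l × Fin l → k, eval u G ≠ 0 := by
    by_contra hcon
    push Not at hcon
    exact hG0 (MvPolynomial.funext fun u => by rw [hcon u, map_zero])
  refine ⟨l + l, 3 * l + 1, idl u, deg_idl u, ?_⟩
  have hle : ((c * (3 * l + 1) + 1 : ℕ) : ℕ∞) ≤ defect (idl u) (3 * l + 1) := by
    refine le_sInf ?_
    rintro e ⟨I', hI', r, hr, rfl⟩
    have h1 := not_smoothable G hG u hu I' hI' r hr
    rw [Nat.cast_le]
    have h2 : R = c * (3 * l + 1) + (3 * l + 1) := by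
      simp only [R]
      ring
    omega
  refine lt_of_lt_of_le ?_ hle
  norm_cast
  exact Nat.lt_succ_self _

end Pool.Agent.H9.SmDefect
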