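import Pool.Agent.H9.SmDefect.Lift

/-!
# The schemes with Hilbert function `(1, 2l, l)` and the parameter count
-/

namespace Pool.Agent.H9.SmDefect

open MvPolynomial

variable {k : Type} [Field k] {l : ℕ}

/-- The coefficient of `x_i^2`, plus a combination of the coefficients of `x_a x_{l+b}`. -/
noncomputable def phi (u : Fin l × Fin l × Fin l → k) (i : Fin l) :
    MvPolynomial (Fin (l + l)) k →ₗ[k] k :=
  lcoeff k (Finsupp.single (Fin.castAdd l i) 2) +
    ∑ ab : Fin l × Fin l, u (i, ab) •
      lcoeff k (Finsupp.single (Fin.castAdd l ab.1) 1 + Finsupp.single (Fin.natAdd l ab.2) 1)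

/-- All the functionals defining the scheme. -/
noncomputable def theta (u : Fin l × Fin l × Fin l → k) :
    MvPolynomial (Fin (l + l)) k →ₗ[k] (k × (Fin (l + l) → k)) × (Fin l → k) :=
  ((lcoeff k 0).prod (LinearMap.pi fun a => lcoeff k (Finsupp.single a 1))).prod
    (LinearMap.pi fun i => phi u i)

theorem mem_ker_theta (u : Fin l × Fin l × Fin l → k) (f : MvPolynomial (Fin (l + l)) k) :
    theta u f = 0 ↔ coeff 0 f = 0 ∧ (∀ a, coeff (Finsupp.single a 1) f = 0) ∧
      ∀ i, phi u i f = 0 := by
  constructor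
  · intro h
    refine ⟨congrArg (fun x => x.1.1) h, fun a => congrFun (congrArg (fun x => x.1.2) h) a,
      fun i => congrFun (congrArg (fun x => x.2) h) i⟩
  · rintro ⟨h1, h2, h3⟩
    exact Prod.ext (Prod.ext h1 (funext h2)) (funext h3)

theorem degree_le_one {τ : Type} (m : τ →₀ ℕ) (h : m.degree ≤ 1) :
    m = 0 ∨ ∃ a, m = Finsupp.single a 1 := by
  by_cases h0 : m = 0
  · exact Or.inl h0
  · right
    obtain ⟨a, ha⟩ := Finsupp.ne_iff.1 h0
    refine ⟨a, ?_⟩
    have h4 : m = (m - Finsupp.single a 1) + Finsupp.single a 1 := by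
      refine (tsub_add_cancel_of_le ?_).symm
      rw [Finsupp.single_le_iff]
      exact Nat.one_le_iff_ne_zero.2 ha
    have h5 := congrArg Finsupp.degree h4
    rw [map_add, Finsupp.degree_single] at h5
    have h6 : (m - Finsupp.single a 1).degree = 0 := by omega
    rw [Finsupp.degree_eq_zero_iff] at h6
    rw [h6, zero_add] at h4
    exact h4

theorem theta_mul_X (u : Fin l × Fin l × Fin l → k) (f : MvPolynomial (Fin (l + l)) k)
    (hf : theta u f = 0) (s : Fin (l + l)) : theta u (f * X s) = 0 := by
  classical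
  rw [mem_ker_theta] at hf ⊢
  obtain ⟨h1, h2, -⟩ := hf
  have key : ∀ m : Fin (l + l) →₀ ℕ, m.degree ≤ 2 → coeff m (f * X s) = 0 := by
    intro m hm
    rw [coeff_mul_X']
    split_ifs with h
    · have h3 : (m - Finsupp.single s 1).degree ≤ 1 := by
        have h4 : m = (m - Finsupp.single s 1) + Finsupp.single s 1 := by
          refine (tsub_add_cancel_of_le ?_).symm
          rw [Finsupp.single_le_iff]
          exact Nat.one_le_iff_ne_zero.2 (Finsupp.mem_support_iff.1 h)
        have h5 := congrArg Finsupp.degree h4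
        rw [map_add, Finsupp.degree_single] at h5
        omega
      rcases degree_le_one _ h3 with h4 | ⟨a, h4⟩
      · rw [h4]
        exact h1
      · rw [h4]
        exact h2 a
    · rfl
  refine ⟨key 0 (by simp), fun a => key _ (by simp), fun i => ?_⟩
  rw [phi, LinearMap.add_apply, LinearMap.sum_apply, lcoeff_apply, key _ (by simp), zero_add]
  refine Finset.sum_eq_zero fun ab _ => ?_
  rw [LinearMap.smul_apply, lcoeff_apply, key _ (by simp), smul_zero]

/-- The ideal of the scheme. -/
noncomputable def idl (u : Fin l × Fin l × Fin l → k) : Ideal (MvPolynomial (Fin (l + l)) k) where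
  carrier := {f | theta u f = 0}
  zero_mem' := map_zero _
  add_mem' := fun {a b} ha hb => by
    change theta u (a + b) = 0
    rw [map_add, ha, hb, add_zero]
  smul_mem' := by
    intro c f hf
    change theta u (c * f) = 0
    have hf' : theta u f = 0 := hf
    induction c using MvPolynomial.induction_on with
    | C a => rw [← smul_eq_C_mul, map_smul, hf', smul_zero]
    | add a b ha hb => rw [add_mul, map_add, ha, hb, add_zero]
    | mul_X a i ha =>
      have h : a * X i * f = (a * f) * X i := by ring
      rw [h]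
      exact theta_mul_X u _ ha i

theorem mem_idl (u : Fin l × Fin l × Fin l → k) (f : MvPolynomial (Fin (l + l)) k) :
    f ∈ idl u ↔ theta u f = 0 := Iff.rfl

theorem ne1 (a b c : Fin l) :
    (Finsupp.single (Fin.castAdd l a) 1 + Finsupp.single (Fin.natAdd l b) 1 : Fin (l + l) →₀ ℕ)
      ≠ Finsupp.single (Fin.castAdd l c) 2 := by
  intro h
  have h1 := DFunLike.congr_fun h (Fin.natAdd l b)
  have h2 : Fin.castAdd l a ≠ Fin.natAdd l b := by
    intro h3
    have := congrArg Fin.val h3
    simp at this
    omega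
  have h3 : Fin.castAdd l c ≠ Fin.natAdd l b := by
    intro h3
    have := congrArg Fin.val h3
    simp at this
    omega
  rw [Finsupp.add_apply, Finsupp.single_eq_same, Finsupp.single_eq_of_ne' h2,
    Finsupp.single_eq_of_ne' h3] at h1
  omega

theorem pair_inj (a b a' b' : Fin l)
    (h : (Finsupp.single (Fin.castAdd l a) 1 + Finsupp.single (Fin.natAdd l b) 1 :
      Fin (l + l) →₀ ℕ) = Finsupp.single (Fin.castAdd l a') 1 + Finsupp.single (Fin.natAdd l b') 1) :
    (a, b) = (a', b') := by
  have hne : ∀ c d : Fin l, Fin.castAdd l c ≠ Fin.natAdd l d := by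
    intro c d h3
    have := congrArg Fin.val h3
    simp at this
    omega
  have h1 := DFunLike.congr_fun h (Fin.natAdd l b)
  have h2 := DFunLike.congr_fun h (Fin.castAdd l a)
  rw [Finsupp.add_apply, Finsupp.add_apply, Finsupp.single_eq_same,
    Finsupp.single_eq_of_ne' (hne _ _), Finsupp.single_eq_of_ne' (hne _ _)] at h1
  rw [Finsupp.add_apply, Finsupp.add_apply, Finsupp.single_eq_same,
    Finsupp.single_eq_of_ne (hne _ _), Finsupp.single_eq_of_ne (hne _ _)] at h2
  have e1 : b = b' := by
    by_contra hb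
    rw [Finsupp.single_eq_of_ne' (fun h => hb (Fin.natAdd_injective _ _ h).symm)] at h1
    omega
  have e2 : a = a' := by
    by_contra ha
    rw [Finsupp.single_eq_of_ne' (fun h => ha (Fin.castAdd_injective _ _ h).symm)] at h2
    omega
  rw [e1, e2]

theorem phi_X_mul_X (u : Fin l × Fin l × Fin l → k) (i a b : Fin l) :
    phi u i (X (Fin.castAdd l a) * X (Fin.natAdd l b)) = u (i, a, b) := by
  classical
  rw [X, X, monomial_mul, one_mul, phi, LinearMap.add_apply, lcoeff_apply, coeff_monomial,
    if_neg (ne1 a b i), zero_add, LinearMap.sum_apply, Finset.sum_eq_single (a, b)]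
  · rw [LinearMap.smul_apply, lcoeff_apply, coeff_monomial, if_pos rfl, smul_eq_mul, mul_one]
  · intro ab _ hab
    rw [LinearMap.smul_apply, lcoeff_apply, coeff_monomial, if_neg, smul_zero]
    intro h
    exact hab (pair_inj _ _ _ _ h).symm
  · simp

theorem phi_low (u : Fin l × Fin l × Fin l → k) (i : Fin l) (m : Fin (l + l) →₀ ℕ)
    (hm : m.degree ≤ 1) (c : k) : phi u i (monomial m c) = 0 := by
  classical
  have key : ∀ m' : Fin (l + l) →₀ ℕ, m'.degree = 2 → coeff m' (monomial m c) = 0 := by
    intro m' hm'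
    rw [coeff_monomial, if_neg]
    rintro rfl
    omega
  rw [phi, LinearMap.add_apply, LinearMap.sum_apply, lcoeff_apply, key _ (by simp), zero_add]
  refine Finset.sum_eq_zero fun ab _ => ?_
  rw [LinearMap.smul_apply, lcoeff_apply, key _ (by simp), smul_zero]

theorem phi_sq (u : Fin l × Fin l × Fin l → k) (i j : Fin l) (c : k) :
    phi u i (monomial (Finsupp.single (Fin.castAdd l j) 2) c) = if i = j then c else 0 := by
  classical
  rw [phi, LinearMap.add_apply, LinearMap.sum_apply, lcoeff_apply, coeff_monomial,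
    Finset.sum_eq_zero, add_zero]
  · by_cases h : i = j
    · rw [if_pos h, if_pos (by rw [h])]
    · rw [if_neg h, if_neg]
      intro h1
      rw [Finsupp.single_left_inj (by norm_num)] at h1
      exact h (Fin.castAdd_injective _ _ h1).symm
  · intro ab _
    rw [LinearMap.smul_apply, lcoeff_apply, coeff_monomial, if_neg, smul_zero]
    exact fun h => ne1 _ _ _ h.symm

theorem theta_1 (u : Fin l × Fin l × Fin l → k) (f : MvPolynomial (Fin (l + l)) k) :
    (theta u f).1.1 = coeff 0 f := rfl

theorem theta_2 (u : Fin l × Fin l × Fin l → k) (f : MvPolynomial (Fin (l + l)) k)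
    (a : Fin (l + l)) : (theta u f).1.2 a = coeff (Finsupp.single a 1) f := rfl

theorem theta_3 (u : Fin l × Fin l × Fin l → k) (f : MvPolynomial (Fin (l + l)) k)
    (i : Fin l) : (theta u f).2 i = phi u i f := rfl

theorem theta_surjective (u : Fin l × Fin l × Fin l → k) : Function.Surjective (theta u) := by
  classical
  rintro ⟨⟨c, v⟩, w⟩
  refine ⟨monomial 0 c + ∑ a, monomial (Finsupp.single a 1) (v a) +
    ∑ i, monomial (Finsupp.single (Fin.castAdd l i) 2) (w i), ?_⟩
  have hs1 : ∀ a : Fin (l + l), Finsupp.single a 1 ≠ (0 : Fin (l + l) →₀ ℕ) := fun a => by simp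
  have hs2 : ∀ a : Fin (l + l), Finsupp.single a 2 ≠ (0 : Fin (l + l) →₀ ℕ) := fun a => by simp
  have hs3 : ∀ a b : Fin (l + l), Finsupp.single a 2 ≠ (Finsupp.single b 1 : Fin (l + l) →₀ ℕ) := by
    intro a b h
    have := congrArg Finsupp.degree h
    simp at this
  refine Prod.ext (Prod.ext ?_ (funext fun a => ?_)) (funext fun i => ?_)
  · rw [theta_1, coeff_add, coeff_add, coeff_sum, coeff_sum, coeff_monomial, if_pos rfl,
      Finset.sum_eq_zero (fun a _ => by rw [coeff_monomial, if_neg (hs1 a)]),
      Finset.sum_eq_zero (fun a _ => by rw [coeff_monomial, if_neg (hs2 _)]), add_zero, add_zero]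
  · rw [theta_2, coeff_add, coeff_add, coeff_sum, coeff_sum, coeff_monomial, if_neg (hs1 a).symm,
      Finset.sum_eq_single a, coeff_monomial, if_pos rfl,
      Finset.sum_eq_zero (fun a _ => by rw [coeff_monomial, if_neg (hs3 _ _)]), add_zero, zero_add]
    · intro b _ hb
      rw [coeff_monomial, if_neg]
      rw [Finsupp.single_left_inj (by norm_num)]
      exact hb
    · simp
  · rw [theta_3, map_add, map_add, map_sum, map_sum, phi_low u i 0 (by simp),
      Finset.sum_eq_zero (fun a _ => phi_low u i _ (by simp) _), Finset.sum_eq_single i, phi_sq,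
      if_pos rfl, zero_add, zero_add]
    · intro b _ hb
      rw [phi_sq, if_neg hb.symm]
    · simp

/-- The coordinate ring as a vector space. -/
noncomputable def quotEquiv (u : Fin l × Fin l × Fin l → k) :
    (MvPolynomial (Fin (l + l)) k ⧸ idl u) ≃ₗ[k] (k × (Fin (l + l) → k)) × (Fin l → k) :=
  (Submodule.Quotient.restrictScalarsEquiv k (idl u)).symm.trans
    ((Submodule.quotEquivOfEq _ (LinearMap.ker (theta u)) rfl).trans
      ((theta u).quotKerEquivOfSurjective (theta_surjective u)))

theorem finite_idl (u : Fin l × Fin l × Fin l → k) :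
    Module.Finite k (MvPolynomial (Fin (l + l)) k ⧸ idl u) :=
  Module.Finite.equiv (quotEquiv u).symm

theorem deg_idl (u : Fin l × Fin l × Fin l → k) : HasDegree (idl u) (3 * l + 1) := by
  refine ⟨finite_idl u, inferInstance, ?_⟩
  rw [(quotEquiv u).finrank_eq]
  simp
  ring

end Pool.Agent.H9.SmDefect
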